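import Pool.Agent.N325.DD.LB

set_option autoImplicit false

/-!
Project DD2 (helper325), leaf B: the sum of the base (helper627).
-/

namespace Pool.Agent.N627.DD

open Finset Pool.Agent.N325.DD

/-- every positive integer is the product of an integer with all prime factors at least `K` and one
with all prime factors less than `K` -/
theorem decomp (K a : ℕ) : a ≠ 0 → ∃ m s, a = m * s ∧ m ≠ 0 ∧ s ≠ 0 ∧
    (∀ p : ℕ, p.Prime → p ∣ m → K ≤ p) ∧ ∀ p : ℕ, p.Prime → p ∣ s → p < K := by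
  induction a using induction_on_primes with
  | zero => exact fun h => absurd rfl h
  | one =>
    intro _
    exact ⟨1, 1, rfl, one_ne_zero, one_ne_zero,
      fun p hp h => absurd (Nat.dvd_one.1 h) hp.one_lt.ne',
      fun p hp h => absurd (Nat.dvd_one.1 h) hp.one_lt.ne'⟩
  | prime_mul q b hq ih =>
    intro hb
    have hb0 : b ≠ 0 := fun h => hb (by rw [h, mul_zero])
    obtain ⟨m, s, h1, hm, hs, h2, h3⟩ := ih hb0
    rcases le_or_gt K q with hK | hK
    · refine ⟨q * m, s, by rw [h1, mul_assoc], mul_ne_zero hq.ne_zero hm, hs, fun p hp h => ?_, h3⟩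
      rcases (hp.dvd_mul).1 h with h | h
      · rwa [(Nat.prime_dvd_prime_iff_eq hp hq).1 h]
      · exact h2 p hp h
    · refine ⟨m, q * s, by rw [h1]; ring, hm, mul_ne_zero hq.ne_zero hs, h2, fun p hp h => ?_⟩
      rcases (hp.dvd_mul).1 h with h | h
      · rwa [(Nat.prime_dvd_prime_iff_eq hp hq).1 h]
      · exact h3 p hp h

theorem base_sum (K n : ℕ) (_hK : 1 ≤ K) : n - n / 3 ≤ ∑ m ∈ R K n, bq K n (n / m) := by
  classical
  have h1 : Finset.Ioc (n / 3) n ⊆ (R K n).biUnion fun m =>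
      ((W K n).filter (fun s => s ≤ n / m ∧ n / m < 3 * s)).image fun s => m * s := by
    intro a ha
    obtain ⟨ha1, ha2⟩ := Finset.mem_Ioc.1 ha
    have ha0 : a ≠ 0 := by omega
    obtain ⟨m, s, h2, hm, hs, h3, h4⟩ := decomp K a ha0
    have hm1 : 1 ≤ m := Nat.one_le_iff_ne_zero.2 hm
    have hs1 : 1 ≤ s := Nat.one_le_iff_ne_zero.2 hs
    have hma : m ≤ a := by rw [h2]; exact Nat.le_mul_of_pos_right m hs1
    have hsa : s ≤ a := by rw [h2]; exact Nat.le_mul_of_pos_left s hm1
    rw [Finset.mem_biUnion]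
    refine ⟨m, mem_R.2 ⟨⟨hm1, hma.trans ha2⟩, h3⟩, ?_⟩
    rw [Finset.mem_image]
    refine ⟨s, Finset.mem_filter.2 ⟨mem_W.2 ⟨⟨hs1, hsa.trans ha2⟩, h4⟩, ?_, ?_⟩, h2.symm⟩
    · rw [Nat.le_div_iff_mul_le hm1, mul_comm, ← h2]
      exact ha2
    · rw [Nat.div_lt_iff_lt_mul hm1]
      have h5 : n < a * 3 := (Nat.div_lt_iff_lt_mul (by norm_num)).1 ha1
      calc n < a * 3 := h5
        _ = 3 * s * m := by rw [h2]; ring
  calc n - n / 3 = (Finset.Ioc (n / 3) n).card := (Nat.card_Ioc _ _).symm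
    _ ≤ ((R K n).biUnion fun m =>
        ((W K n).filter (fun s => s ≤ n / m ∧ n / m < 3 * s)).image fun s => m * s).card :=
        Finset.card_le_card h1
    _ ≤ ∑ m ∈ R K n, (((W K n).filter (fun s => s ≤ n / m ∧ n / m < 3 * s)).image
        fun s => m * s).card := Finset.card_biUnion_le
    _ ≤ ∑ m ∈ R K n, bq K n (n / m) := by
        refine Finset.sum_le_sum fun m _ => ?_
        refine Finset.card_image_le.trans (le_of_eq ?_)
        unfold bq
        congr

end Pool.Agent.N627.DD
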